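import Pool.Agent.HB.D.Defs
import Pool.Agent.HB.B.BB
import Pool.Agent.HB.F.Defs

/-!
# HB-Z-Marks: elementary facts about the five marks
-/

set_option autoImplicit false

namespace HB

open Surf

section Indep

variable {k K : Type} [Field k] [Field K] [Algebra k K]

/-- If `s, t` are rational functions of `u, v`, then `u, v` are algebraically independent. -/
theorem indep_of_adjoin (S : Surf k K) {u v : K}
    (hs : S.s ∈ IntermediateField.adjoin k (Set.range ![u, v]))
    (ht : S.t ∈ IntermediateField.adjoin k (Set.range ![u, v])) :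
    AlgebraicIndependent k ![u, v] := by
  have hle : IntermediateField.adjoin k ({S.s, S.t} : Set K) ≤
      IntermediateField.adjoin k (Set.range ![u, v]) := by
    rw [IntermediateField.adjoin_le_iff]
    rintro z (rfl | rfl)
    · exact hs
    · exact ht
  letI : Algebra (IntermediateField.adjoin k ({S.s, S.t} : Set K))
      (IntermediateField.adjoin k (Set.range ![u, v])) :=
    (IntermediateField.inclusion hle).toRingHom.toAlgebra
  haveI : IsScalarTower (IntermediateField.adjoin k ({S.s, S.t} : Set K))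
      (IntermediateField.adjoin k (Set.range ![u, v])) K := IsScalarTower.of_algebraMap_eq' rfl
  haveI := S.fin
  haveI : Algebra.IsAlgebraic (IntermediateField.adjoin k ({S.s, S.t} : Set K)) K :=
    Algebra.IsAlgebraic.of_finite _ _
  haveI : Algebra.IsAlgebraic (IntermediateField.adjoin k (Set.range ![u, v])) K :=
    Algebra.IsAlgebraic.tower_top (K := IntermediateField.adjoin k ({S.s, S.t} : Set K)) _
  haveI : Algebra.IsAlgebraic (Algebra.adjoin k (Set.range ![u, v])) K :=
    IntermediateField.isAlgebraic_adjoin_iff_top.1 inferInstance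
  have h := Algebra.IsAlgebraic.isTranscendenceBasis_of_le_trdeg_of_finite k ![u, v]
    S.indep.cardinalMk_le_trdeg
  exact h.1

variable {X : Surf k K} (G : Geo X)

theorem Geo.indep : AlgebraicIndependent k ![G.x 0, G.x 1] := by
  have h0 : G.x 0 ∈ IntermediateField.adjoin k (Set.range ![G.x 0, G.x 1]) :=
    IntermediateField.subset_adjoin k _ ⟨0, rfl⟩
  have h1 : G.x 1 ∈ IntermediateField.adjoin k (Set.range ![G.x 0, G.x 1]) :=
    IntermediateField.subset_adjoin k _ ⟨1, rfl⟩
  apply indep_of_adjoin X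
  · rw [G.hs]; exact add_mem h0 h1
  · rw [G.ht]; exact mul_mem h0 h1

theorem Geo.transc0 : Transcendental k (G.x 0) := by
  have := G.indep.transcendental 0
  simpa using this

theorem Geo.transc1 : Transcendental k (G.x 1) := by
  have := G.indep.transcendental 1
  simpa using this

theorem Geo.zeta3 : G.ζ ^ 3 = 1 := by linear_combination (G.ζ - 1) * G.hζ

theorem Geo.zeta_ne : G.ζ ≠ 0 := by
  intro h
  have := G.zeta3
  rw [h] at this
  simp at this

theorem Geo.transc (a : Fin 3) : Transcendental k (G.x a) := by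
  fin_cases a
  · exact G.transc0
  · exact G.transc1
  · intro h
    apply G.transc0
    have h2 : IsAlgebraic k (algebraMap k K G.ζ⁻¹ * G.x 2) := (isAlgebraic_algebraMap _).mul h
    have h3 : algebraMap k K G.ζ⁻¹ * G.x 2 = G.x 0 := by
      rw [G.x2, ← mul_assoc, ← map_mul, inv_mul_cancel₀ G.zeta_ne, map_one, one_mul]
    rwa [h3] at h2

theorem Geo.x_ne_const (a : Fin 3) (c : k) : G.x a ≠ algebraMap k K c := by
  intro h
  exact G.transc a (h ▸ isAlgebraic_algebraMap c)

theorem Geo.x_ne_zero (a : Fin 3) : G.x a ≠ 0 := by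
  have := G.x_ne_const a 0
  rwa [map_zero] at this

theorem Geo.y_ne_zero (a : Fin 3) : G.y a ≠ 0 := by
  intro h
  have h1 := G.curve a
  rw [h] at h1
  apply G.transc a
  refine ⟨Polynomial.X ^ 6 + Polynomial.C 1, ?_, ?_⟩
  · exact Polynomial.X_pow_add_C_ne_zero (by norm_num) 1
  · simp only [map_add, map_pow, Polynomial.aeval_X, Polynomial.aeval_C, map_one]
    linear_combination -h1

end Indep

section Marks

variable {k K : Type} [Field k] [CharZero k] [Field K] [Algebra k K] {X : Surf k K} (G : Geo X)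

theorem Geo.i02 (D : DV k K) : D.iB (G.pt 0) (G.pt 2) = 0 := by
  have hcK : CharZero K := charZero_of_injective_algebraMap (algebraMap k K).injective
  have hζ1 : G.ζ - 1 ≠ 0 := by
    intro h
    have h1 : G.ζ = 1 := sub_eq_zero.1 h
    have := G.hζ
    rw [h1] at this
    norm_num at this
  have hu1 : D.v (1 - algebraMap k K G.ζ) = 0 := by
    have := D.const (1 - G.ζ)
    rwa [map_sub, map_one] at this
  have hne1 : (1 - algebraMap k K G.ζ) ≠ 0 := by
    rw [← map_one (algebraMap k K), ← map_sub]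
    exact (map_ne_zero _).2 (fun h => hζ1 (by linear_combination -h))
  have h2 : D.v (2 : K) = 0 := by
    have := D.const (2 : k)
    rwa [map_ofNat] at this
  have hζv : D.v (algebraMap k K G.ζ) = 0 := D.const _
  have hζne : algebraMap k K G.ζ ≠ 0 := (map_ne_zero _).2 G.zeta_ne
  have hx := G.x_ne_zero 0
  have hy := G.y_ne_zero 0
  have hc := G.curve 0
  have hfin : (G.pt 2).IsFin D ↔ (G.pt 0).IsFin D := by
    rw [G.pt0, G.pt2]
    change D.ge 0 (G.x 2) ↔ D.ge 0 (G.x 0)
    rw [G.x2]
    unfold DV.ge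
    rw [D.mul hζne hx, hζv, zero_add]
    simp [hζne]
  by_cases hf : (G.pt 0).IsFin D
  · rw [DV.iB_fin D hf (hfin.2 hf), G.pt0, G.pt2]
    simp only [BPt.x, BPt.y]
    have e1 : G.x 0 - G.x 2 = (1 - algebraMap k K G.ζ) * G.x 0 := by rw [G.x2]; ring
    have e2 : G.y 0 - G.y 2 = 2 * G.y 0 := by rw [G.y2]; ring
    rw [e1, e2]
    have hx0 : 0 ≤ D.v (G.x 0) := D.le_of_ge hx hf
    unfold DV.dmin
    rw [if_neg (mul_ne_zero hne1 hx), if_neg (mul_ne_zero two_ne_zero hy), D.mul hne1 hx,
      D.mul two_ne_zero hy, hu1, h2, zero_add, zero_add]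
    have hy2 : 2 * D.v (G.y 0) = D.v (G.x 0 ^ 6 + 1) := by
      rw [← hc, D.pow hy]; norm_num
    rcases lt_or_eq_of_le hx0 with hlt | heq
    · have h6 : D.v (G.x 0 ^ 6) = 6 * D.v (G.x 0) := by rw [D.pow hx]; norm_num
      have := D.add_eq_left (x := 1) (y := G.x 0 ^ 6) one_ne_zero (Or.inr (by
        rw [D.one, h6]; omega))
      rw [add_comm] at this
      rw [this.2, D.one] at hy2
      omega
    · have hyi : 0 ≤ D.v (G.y 0) := by
        have h6 : D.ge 0 (G.x 0 ^ 6 + 1) := D.ge_add (D.ge_pow hf 6) D.ge_one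
        have h7 : G.x 0 ^ 6 + 1 ≠ 0 := by rw [← hc]; exact pow_ne_zero 2 hy
        have h8 := D.le_of_ge h7 h6
        omega
      omega
  · rw [DV.iB_inf D hf (fun h => hf (hfin.1 h)), G.pt0, G.pt2]
    simp only [BPt.xh, BPt.yh]
    have hx2 : G.x 2 ≠ 0 := G.x_ne_zero 2
    have hζK3 : (algebraMap k K G.ζ) ^ 3 = 1 := by rw [← map_pow, G.zeta3, map_one]
    have e2 : G.y 0 / G.x 0 ^ 3 - G.y 2 / G.x 2 ^ 3 = 2 * (G.y 0 / G.x 0 ^ 3) := by
      rw [G.y2, G.x2, mul_pow, hζK3, one_mul]; ring
    have hnx : D.v (G.x 0) < 0 := by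
      by_contra h
      exact hf (Or.inr (not_lt.1 h))
    have hyv : D.v (G.y 0) = 3 * D.v (G.x 0) := by
      have h6 : D.v (G.x 0 ^ 6) = 6 * D.v (G.x 0) := by rw [D.pow hx]; norm_num
      have := D.add_eq_left (x := G.x 0 ^ 6) (y := 1) (pow_ne_zero 6 hx) (Or.inr (by
        rw [D.one, h6]; omega))
      rw [← hc, D.pow hy, h6] at this
      have h7 := this.2
      push_cast at h7
      omega
    have hyu : D.v (2 * (G.y 0 / G.x 0 ^ 3)) = 0 := by
      rw [D.mul two_ne_zero (div_ne_zero hy (pow_ne_zero 3 hx)), h2,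
        D.div hy (pow_ne_zero 3 hx), D.pow hx, hyv]
      push_cast
      ring
    have hyne : 2 * (G.y 0 / G.x 0 ^ 3) ≠ 0 :=
      mul_ne_zero two_ne_zero (div_ne_zero hy (pow_ne_zero 3 hx))
    rw [e2, D.dmin_comm]
    refine DV.dmin_eq_zero D hyne hyu ?_
    have g1 : D.ge 0 (G.x 0)⁻¹ := Or.inr (by rw [D.inv hx]; omega)
    have g2 : D.ge 0 (G.x 2)⁻¹ := by
      refine Or.inr ?_
      rw [D.inv hx2, G.x2, D.mul hζne hx, hζv]
      omega
    exact D.ge_sub g1 g2

theorem Geo.i34 (D : DV k K) : D.iB (G.pt 3) (G.pt 4) = 0 := by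
  have hcK : CharZero K := charZero_of_injective_algebraMap (algebraMap k K).injective
  have h3 : ¬ (G.pt 3).IsFin D := by rw [G.pt3]; exact fun h => h
  have h4 : ¬ (G.pt 4).IsFin D := by rw [G.pt4]; exact fun h => h
  rw [DV.iB_inf D h3 h4, G.pt3, G.pt4]
  simp only [BPt.xh, BPt.yh]
  have h2 : D.v (2 : K) = 0 := by
    have := D.const (2 : k)
    rwa [map_ofNat] at this
  rw [sub_self, D.dmin_zero_left]
  norm_num
  exact h2

end Marks

end HB
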