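import Pool.Agent.HB.Z.Marks
import Pool.Agent.HB.A.LocC

/-!
# HB-Z-Mor: the marks are morphisms `X → B`
-/

set_option autoImplicit false

open IsLocalRing

namespace HB

open Surf

universe u

/-- A root of `A X² - S' X + T'` with `(A, S', T') = 1` in an integrally closed local ring `R`
is in `R` or has its inverse in `R`. -/
theorem root_or_inv {L : Type u} [Field L] (R : Subring L) [IsLocalRing R]
    (hint : ∀ x : L, IsIntegral R x → x ∈ R) {A S' T' x : L} (hA : A ∈ R) (hS : S' ∈ R)
    (hT : T' ∈ R) (hu : A = 1 ∨ S' = 1 ∨ T' = 1) (h : A * x ^ 2 - S' * x + T' = 0) :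
    x ∈ R ∨ x⁻¹ ∈ R := by
  by_cases hx0 : x = 0
  · left; rw [hx0]; exact R.zero_mem
  have hunit : ∀ z : L, z ∈ R → (z ≠ 0 ∧ z⁻¹ ∈ R) ∨ (1 - z ≠ 0 ∧ (1 - z)⁻¹ ∈ R) := by
    intro z hz
    have h1 : IsUnit (⟨z, hz⟩ : R) ∨ IsUnit (1 - (⟨z, hz⟩ : R)) :=
      IsLocalRing.isUnit_or_isUnit_one_sub_self _
    rcases h1 with h1 | h1
    · left
      obtain ⟨w, hw⟩ := h1.exists_right_inv
      have h2 : z * (w : L) = 1 := congrArg Subtype.val hw
      refine ⟨left_ne_zero_of_mul_eq_one h2, ?_⟩
      rw [inv_eq_of_mul_eq_one_right h2]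
      exact w.2
    · right
      obtain ⟨w, hw⟩ := h1.exists_right_inv
      have h2 : (1 - z) * (w : L) = 1 := congrArg Subtype.val hw
      refine ⟨left_ne_zero_of_mul_eq_one h2, ?_⟩
      rw [inv_eq_of_mul_eq_one_right h2]
      exact w.2
  -- a root of a monic quadratic polynomial is in `R`
  have hquad : ∀ z a b : L, a ∈ R → b ∈ R → z ^ 2 + a * z + b = 0 → z ∈ R := by
    intro z a b ha hb hz
    apply hint
    refine ⟨Polynomial.X ^ 2 + Polynomial.C (⟨a, ha⟩ : R) * Polynomial.X +
      Polynomial.C (⟨b, hb⟩ : R), ?_, ?_⟩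
    · monicity!
    · simp only [Polynomial.eval₂_add, Polynomial.eval₂_mul, Polynomial.eval₂_pow,
        Polynomial.eval₂_X, Polynomial.eval₂_C]
      exact hz
  rcases hu with rfl | rfl | rfl
  · left
    exact hquad x (-S') T' (R.neg_mem hS) hT (by linear_combination h)
  · -- `S' = 1`
    have hw : A * x ∈ R := hquad (A * x) (-1) (A * T') (R.neg_mem R.one_mem) (R.mul_mem hA hT)
      (by linear_combination A * h)
    rcases hunit _ hw with ⟨h0, h1⟩ | ⟨h1, h2⟩
    · right
      have h3 : x⁻¹ = A * (A * x)⁻¹ := by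
        have hA0 : A ≠ 0 := left_ne_zero_of_mul h0
        field_simp
      rw [h3]
      exact R.mul_mem hA h1
    · left
      have h4 : x = T' * (1 - A * x)⁻¹ := by
        rw [eq_mul_inv_iff_mul_eq₀ h1]
        linear_combination -h
      rw [h4]
      exact R.mul_mem hT h2
  · right
    refine hquad x⁻¹ (-S') A (R.neg_mem hS) hA ?_
    field_simp
    linear_combination h

variable {k K : Type} [Field k] [Field K] [Algebra k K] [CharZero k] [IsAlgClosed k]
  {X : Surf k K} (G : Geo X)

theorem Geo.mor_x (P : X.Pt) (a : Fin 3) :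
    G.x a ∈ P.1.toSubring ∨ (G.x a)⁻¹ ∈ P.1.toSubring := by
  -- the coordinates `x 0`, `x 1` are the roots of `X² - s X + t`
  have key : ∀ x : K, x ^ 2 - X.s * x + X.t = 0 → x ∈ P.1.toSubring ∨ x⁻¹ ∈ P.1.toSubring := by
    intro x hx
    obtain ⟨l, hl, hle⟩ := P.exists_chart
    have h1 : (1 : K) / l ∈ P.1.toSubring := hle (div_mem_chart X (one_mem_V X))
    have h2 : X.s / l ∈ P.1.toSubring := hle (div_mem_chart X (s_mem_V X))
    have h3 : X.t / l ∈ P.1.toSubring := hle (div_mem_chart X (t_mem_V X))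
    have hl0 : l ≠ 0 := (ne_zero_of_mem hl).2
    have := P.1.isLocalRing
    refine root_or_inv P.1.toSubring (fun x hx => P.int hx) h1 h2 h3 ?_ ?_
    · rcases hl with rfl | rfl | hl
      · left; exact div_one 1
      · right; left; exact div_self hl0
      · right; right
        rw [Set.mem_singleton_iff] at hl
        rw [hl] at hl0 ⊢
        exact div_self hl0
    · field_simp
      linear_combination hx
  have h0 := key (G.x 0) (by rw [G.hs, G.ht]; ring)
  fin_cases a
  · exact h0
  · exact key (G.x 1) (by rw [G.hs, G.ht]; ring)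
  · change G.x 2 ∈ _ ∨ (G.x 2)⁻¹ ∈ _
    rw [G.x2]
    rcases h0 with h | h
    · left
      exact P.1.toSubring.mul_mem (P.algebraMap_mem _) h
    · right
      rw [mul_inv, ← map_inv₀]
      exact P.1.toSubring.mul_mem (P.algebraMap_mem _) h

theorem Geo.mor (a : Fin 5) : X.Mor (G.pt a) := by
  intro P
  fin_cases a
  · exact G.mor_x P 0
  · exact G.mor_x P 1
  · exact G.mor_x P 2
  · exact Or.inl P.1.toSubring.zero_mem
  · exact Or.inl P.1.toSubring.zero_mem

end HB
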