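import Pool.Agent.HB.Z.Mor
import Pool.Agent.HB.E2.Stab
import Pool.Agent.HB.E2.Deg
import Pool.Agent.HB.D.Defs

/-!
# HB-Z-BData: the data of the bundle for part E, and the stability statements

`Core G Z` collects what parts D and R5 prove about the bundle.
-/

set_option autoImplicit false

open scoped Matrix

namespace HB

open Surf

variable {k K : Type} [Field k] [CharZero k] [IsAlgClosed k] [Field K] [CharZero K] [Algebra k K]

/-- The eigenvalues of the Higgs field. -/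
noncomputable def Geo.lam {X : Surf k K} (G : Geo X) : Fin 5 → Ω[K⁄k] :=
  ![(G.y 0)⁻¹ • KaehlerDifferential.D k K (G.x 0), (G.y 1)⁻¹ • KaehlerDifferential.D k K (G.x 1),
    (G.y 2)⁻¹ • KaehlerDifferential.D k K (G.x 2), 0, 0]

/-- The facts from part D and R5. -/
structure Core {X : Surf k K} (G : Geo X) (Z : ZPair k) where
  u : X.Pt → Fin 5 → K
  d : X.Pt → K
  d' : X.Pt → K
  isLoc : ∀ P, G.IsLoc P (u P) (d P) (d' P)
  nloc_ne : ∀ (P : X.Pt) i, G.nloc Z P.1.toSubring i ≠ 0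
  v_nloc : ∀ (P : X.Pt) (D : DV k K), D.NonNeg P.1.toSubring → ∀ i,
    D.v (G.nloc Z P.1.toSubring i) = - G.NN Z D i
  E : VB X 5
  E_eq : ∀ P, E.E P = latt P.1.toSubring (frame (u P) (G.nloc Z P.1.toSubring) (d P) (d' P))
  glue : ∀ (V : X.PD) (P P' : X.Pt), On P V → On P' V →
    latt V.1.toSubring (frame (u P) (G.nloc Z P.1.toSubring) (d P) (d' P)) =
      latt V.1.toSubring (frame (u P') (G.nloc Z P'.1.toSubring) (d P') (d' P'))
  ρ : Fin 5 → K
  ρ_ne : ∀ i, ρ i ≠ 0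
  rel0 : ∀ D : DV k K, 3 * G.NN Z D 0 =
    3 * (D.iB (G.pt 0) (Z.p.map K) - D.iB (G.pt 0) (Z.q.map K)) + D.iB (G.pt 0) (G.pt 3) +
      D.iB (G.pt 0) (G.pt 4) + 2 * D.iB (G.pt 0) (G.pt 1) + G.VV D - D.v (ρ 0)
  rel1 : ∀ D : DV k K, 3 * G.NN Z D 1 =
    3 * (D.iB (G.pt 1) (Z.p.map K) - D.iB (G.pt 1) (Z.q.map K)) + D.iB (G.pt 1) (G.pt 3) +
      D.iB (G.pt 1) (G.pt 4) + 2 * (D.iB (G.pt 0) (G.pt 1) + D.iB (G.pt 2) (G.pt 1)) + G.VV D -
        D.v (ρ 1)
  rel2 : ∀ D : DV k K, 3 * G.NN Z D 2 =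
    3 * (D.iB (G.pt 2) (Z.p.map K) - D.iB (G.pt 2) (Z.q.map K)) + D.iB (G.pt 2) (G.pt 3) +
      D.iB (G.pt 2) (G.pt 4) + 2 * D.iB (G.pt 2) (G.pt 1) + G.VV D - D.v (ρ 2)
  rel3 : ∀ D : DV k K, 3 * G.NN Z D 3 =
    2 * (D.iB (G.pt 0) (G.pt 3) + D.iB (G.pt 1) (G.pt 3) + D.iB (G.pt 2) (G.pt 3)) + G.VV D -
      D.v (ρ 3)
  rel4 : ∀ D : DV k K, 3 * G.NN Z D 4 =
    2 * (D.iB (G.pt 0) (G.pt 4) + D.iB (G.pt 1) (G.pt 4) + D.iB (G.pt 2) (G.pt 4)) + G.VV D -
      D.v (ρ 4)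

/-- The data of the bundle in the form used by part E. -/
noncomputable def Core.bdata {X : Surf k K} {G : Geo X} {Z : ZPair k} (A : Core G Z) :
    E2.BData X where
  pt := G.pt
  indep := G.indep
  y0 := G.y_ne_zero 0
  y1 := G.y_ne_zero 1
  Z := fun a D => D.iB (G.pt a) (Z.p.map K) - D.iB (G.pt a) (Z.q.map K)
  V := fun D => G.VV D
  ρ := A.ρ
  ρ_ne := A.ρ_ne
  n := fun P => G.nloc Z P.1.toSubring
  u := A.u
  δ0 := A.d
  δ2 := A.d'
  n_ne := A.nloc_ne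
  u_mem := fun P => (A.isLoc P).u_mem
  u_inj := fun P i j h => by
    by_contra hij
    exact (A.isLoc P).u_ne i j hij h
  δ0_ne := fun P => (A.isLoc P).d_ne
  δ2_ne := fun P => (A.isLoc P).d'_ne
  δ0_mem := fun P => (A.isLoc P).d_mem
  δ2_mem := fun P => (A.isLoc P).d'_mem
  u02 := fun P => (A.isLoc P).u02
  vu := fun P D hD i j hij => (A.isLoc P).u_val D hD i j hij
  vδ0 := fun P D hD => (A.isLoc P).d_val D hD
  vδ2 := fun P D hD => (A.isLoc P).d'_val D hD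
  i02 := G.i02
  i34 := G.i34
  rel0 := fun P D hD => by
    have h1 := A.v_nloc P D hD 0
    have h2 := A.rel0 D
    linarith
  rel1 := fun P D hD => by
    have h1 := A.v_nloc P D hD 1
    have h2 := A.rel1 D
    linarith
  rel2 := fun P D hD => by
    have h1 := A.v_nloc P D hD 2
    have h2 := A.rel2 D
    linarith
  rel3 := fun P D hD => by
    have h1 := A.v_nloc P D hD 3
    have h2 := A.rel3 D
    linarith
  rel4 := fun P D hD => by
    have h1 := A.v_nloc P D hD 4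
    have h2 := A.rel4 D
    linarith
  E := A.E
  E_eq := A.E_eq
  glue := A.glue
  z := -G.ζ
  z0 := neg_ne_zero.2 G.zeta_ne
  z1 := by
    intro h
    have h1 : G.ζ = -1 := by rw [← h]; ring
    have h2 := G.hζ
    rw [h1] at h2
    norm_num at h2
  lam := G.lam
  lam0 := rfl
  lam1 := rfl
  lam2 := by
    change (G.y 2)⁻¹ • KaehlerDifferential.D k K (G.x 2) =
      algebraMap k K (-G.ζ) • ((G.y 0)⁻¹ • KaehlerDifferential.D k K (G.x 0))
    have h1 : G.x 2 = G.ζ • G.x 0 := by rw [G.x2, Algebra.smul_def]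
    have h2 : KaehlerDifferential.D k K (G.x 2) =
        algebraMap k K G.ζ • KaehlerDifferential.D k K (G.x 0) := by
      rw [h1, Derivation.map_smul]
      exact (algebraMap_smul K G.ζ _).symm
    rw [h2, G.y2, smul_smul, smul_smul, map_neg, inv_neg]
    congr 1
    ring
  lam3 := rfl
  lam4 := rfl

theorem Core.bdata_θ {X : Surf k K} {G : Geo X} {Z : ZPair k} (A : Core G Z) :
    A.bdata.θ = Matrix.diagonal G.lam := rfl

section Stab

variable {L : Type} [Field L] [Algebra k L] [Algebra K L] [IsScalarTower k K L]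

/-- The support of `VV` on a surface `Y` over `X` is finite. -/
theorem Geo.finite_VV {X : Surf k K} (G : Geo X) (Y : Surf k L) :
    {C : Y.PD | G.VV (C.dv.comap : DV k K) ≠ 0}.Finite := by
  have h1 := fun p : BPt K => E2.finite_iInf (Y := Y) p
  have h2 := fun p : EPt K => E2.finite_iE (Y := Y) p
  refine ((((h1 (G.pt 0)).union (h1 (G.pt 1))).union (h1 (G.pt 2))).union
    (((((h2 (G.s 0)).union (h2 (G.s' 0))).union (h2 (G.s 1))).union
      ((h2 (G.s' 1)).union (h2 (G.s 2)))).union (h2 (G.s' 2)))).subset ?_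
  intro C hC
  simp only [Set.mem_union, Set.mem_setOf_eq]
  by_contra hcon
  push Not at hcon
  obtain ⟨⟨⟨h3, h4⟩, h5⟩, ⟨⟨⟨⟨h6, h7⟩, h8⟩, ⟨h9, h10⟩⟩, h11⟩⟩ := hcon
  apply hC
  unfold Geo.VV
  rw [Fin.sum_univ_three, h3, h4, h5, h6, h7, h8, h9, h10, h11]
  norm_num

/-- The degree facts on `Y`, from the corresponding facts about fibres (part F). -/
theorem Core.degFacts {X : Surf k K} {G : Geo X} {Z : ZPair k} (A : Core G Z) {Y : Surf k L}
    (hY : Y.Smooth) (hA : AFacts Y) (hmor : IsMor Y X)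
    (hdeg : ∀ p : BPt L, Y.Mor p → (∀ b : BPt k, p ≠ b.map L) →
      ∀ b b' : BPt k, Y.degH (Y.fib p b) = Y.degH (Y.fib p b')) :
    Nonempty (E2.DegFacts A.bdata Y) := by
  refine E2.exists_degFacts A.bdata hY hA hmor rfl rfl (fun a _ => G.mor a) ?_ Z.p Z.q
    (fun a _ D => rfl) (G.finite_VV Y) hdeg
  intro a ha
  have h3 : a = 0 ∨ a = 1 ∨ a = 2 := by revert a; decide
  rcases h3 with rfl | rfl | rfl
  · exact ⟨G.x 0, G.y 0, G.curve 0, rfl, G.x_ne_const 0⟩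
  · exact ⟨G.x 1, G.y 1, G.curve 1, rfl, G.x_ne_const 1⟩
  · exact ⟨G.x 2, G.y 2, G.curve 2, rfl, G.x_ne_const 2⟩

end Stab

end HB
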