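import Pool.Agent.HB.D.Higgs
import Pool.Agent.HB.D.Flag
import Pool.Agent.HB.Z.BData
import Pool.Agent.HB.F.Dvs

/-!
# HB-Z-OfD: the bundle of part D in the form used by the final assembly
-/

set_option autoImplicit false
set_option linter.unusedSectionVars false

open scoped Matrix

namespace HB

open Surf

variable {k K : Type} [Field k] [CharZero k] [IsAlgClosed k] [Field K] [CharZero K] [Algebra k K]
  {X : Surf k K}

theorem Geo.om_eq_lam (G : Geo X) : (fun i => (G.pt i).om k) = G.lam := by
  funext i
  fin_cases i
  · rfl
  · rfl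
  · rfl
  · change (0 : K)⁻¹ • KaehlerDifferential.D k K (0 : K) = 0
    rw [map_zero, smul_zero]
  · change (0 : K)⁻¹ • KaehlerDifferential.D k K (0 : K) = 0
    rw [map_zero, smul_zero]

/-- Everything the final assembly needs from part D. -/
theorem Geo.exists_core (hX : X.Smooth) (G : Geo X) (Z : ZPair k) {ρ : Fin 5 → K}
    (hR : RFive G Z ρ) : ∃ A : Core G Z, IsHiggs A.E.E (Matrix.diagonal G.lam) ∧
      IsFlag A.E.E (flagMat K) (G.flagD Z) := by
  obtain ⟨W⟩ := G.exists_locData hX
  refine ⟨{ u := W.u
            d := W.d
            d' := W.d'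
            isLoc := W.isLoc
            nloc_ne := fun P i => G.nloc_ne hX Z P i
            v_nloc := fun P D hD i => G.v_nloc hX Z P D hD i
            E := G.bundle hX Z W
            E_eq := G.bundle_E hX Z W
            glue := fun V P P' h h' => G.bundle_glue hX Z W V P P' h h'
            ρ := ρ
            ρ_ne := hR.ne
            rel0 := hR.rel0
            rel1 := hR.rel1
            rel2 := hR.rel2
            rel3 := hR.rel3
            rel4 := hR.rel4 }, ?_, ?_⟩
  · rw [← G.om_eq_lam]
    exact G.higgs hX Z W
  · refine G.isFlag hX Z W (G.flagD Z) (fun C => ?_) (fun C => ?_) (fun C => ?_) (fun C => ?_)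
      (fun C => ?_)
    · rw [(flagD_apply hX hR C).1]
      ring
    · rw [(flagD_apply hX hR C).2.1]
      ring
    · exact (flagD_apply hX hR C).2.2.1
    · exact (flagD_apply hX hR C).2.2.2.1
    · exact (flagD_apply hX hR C).2.2.2.2

end HB
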