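import Pool.Agent.HB.Z.Main
import Pool.Agent.HB.Z.OfD
import Pool.Agent.HB.C.Fin
import Pool.Agent.HB.Pl.Choice
import Pool.Agent.HB.F.PhiZ
import Pool.Agent.HB.D.Rho

/-!
# HB-Z-Final: the final statement
-/

set_option autoImplicit false

open scoped Matrix

namespace HB

open Surf

/-- Q1 of MP_f31a67_ag is false. -/
theorem q1False : Q1False := by
  obtain ⟨K, _, _, X, hX, ⟨G⟩⟩ := C.exists_geo ℂ
  have hK : CharZero K := charZero_of_injective_algebraMap (algebraMap ℂ K).injective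
  obtain ⟨Z, D₁, D₂, -, h1, h2, h3, h4⟩ := exists_choice
  obtain ⟨ρ, hne, h⟩ := G.exists_rho Z
  have hR : RFive G Z ρ := ⟨hne, fun D => (h D).1, fun D => (h D).2.1, fun D => (h D).2.2.1,
    fun D => (h D).2.2.2.1, fun D => (h D).2.2.2.2⟩
  obtain ⟨A, hH, hF⟩ := G.exists_core hX Z hR
  obtain ⟨hd, hne⟩ := Geo.final hX hR D₁ D₂ h1 h2 h3 h4 _ _ rfl rfl
  exact q1False_of_parts hX A hH _ _ ⟨_, _, hF, rfl, rfl⟩ hd hne

end HB
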