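import Pool.Agent.HB.Z.BData
import Pool.Agent.HB.F.AF
import Pool.Agent.HB.F.DegH

/-!
# HB-Z-Main: assembly of the final statement from the parts
-/

set_option autoImplicit false

open scoped Matrix

namespace HB

open Surf

theorem q1False_of_parts {K : Type} [Field K] [CharZero K] [Algebra ℂ K] {X : Surf ℂ K}
    (hX : X.Smooth) {G : Geo X} {Z : ZPair ℂ} (A : Core G Z)
    (hH : IsHiggs A.E.E (Matrix.diagonal G.lam)) (c₁ : X.Div) (c₂ : X.CH0)
    (hc : IsChern A.E.E c₁ c₂)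
    (hd : X.deg ((2 * (5 : ℕ) : ℚ) • c₂ - ((5 : ℕ) - 1 : ℚ) • X.prod c₁ c₁) = 0)
    (hne : ((5 : ℕ) ^ 2 : ℚ) • c₂ ≠ ((Nat.choose 5 2 : ℕ) : ℚ) • X.prod c₁ c₁) : Q1False := by
  refine ⟨K, inferInstance, inferInstance, X, 5, A.E, Matrix.diagonal G.lam, c₁, c₂,
    hX, hH, ?_, ?_, hc, hd, hne⟩
  · obtain ⟨FX⟩ := A.degFacts (L := K) hX (afacts hX) (E2.isMor_self X)
      (fun p hp hn b b' => degH_fib_const hX hp hn b b')
    exact E2.stable_self A.bdata hX FX
  · intro L _ _ _ _ Y hY hmor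
    obtain ⟨FY⟩ := A.degFacts hY (afacts hY) hmor
      (fun p hp hn b b' => degH_fib_const hY hp hn b b')
    exact E2.stable_pull A.bdata hY hmor FY

end HB
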